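import Mathlib

/-!
# Generic freeness and nonzerodivisors in fibres

Let `R` be a domain, `I` an ideal of `R[σ]` and `d` a polynomial which is not a zero divisor modulo
`I`.  After inverting one element `Δ ≠ 0` of `R` the quotient by `I + (d)` is free (with a basis of
monomials), so `d` is not a zero divisor in the fibre over every `R → k` with `Δ ≠ 0` in `k`.
-/

namespace Pool.Agent.Helper92.GF

open MvPolynomial

universe u v w

section dickson

/-- Dickson: a set of exponents has finitely many minimal elements. -/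
theorem exists_min {σ : Type u} [Finite σ] (U : Set (σ →₀ ℕ)) :
    ∃ T : Finset (σ →₀ ℕ), (∀ t ∈ T, t ∈ U) ∧ ∀ u ∈ U, ∃ t ∈ T, t ≤ u := by
  have hanti : IsAntichain (· ≤ ·) {t | Minimal (· ∈ U) t} := by
    intro a ha b hb hab hle
    exact hab (le_antisymm hle (hb.2 ha.1 hle))
  have hfin : {t | Minimal (· ∈ U) t}.Finite :=
    hanti.finite_of_partiallyWellOrderedOn (Set.isPWO_of_wellQuasiOrderedLE _)
  refine ⟨hfin.toFinset, fun t ht => ?_, fun u hu => ?_⟩
  · have := (Set.Finite.mem_toFinset hfin).mp ht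
    exact this.1
  · obtain ⟨b, hb, hmin⟩ := exists_minimal_le_of_wellFoundedLT (fun x => x ∈ U) u hu
    exact ⟨b, (Set.Finite.mem_toFinset hfin).mpr hmin, hb⟩

end dickson

section denominators

variable {σ : Type u} {R : Type v} [CommRing R] (Δ : R)

/-- The polynomials over the localization. -/
noncomputable abbrev lm (σ : Type u) {R : Type v} [CommRing R] (Δ : R) :
    MvPolynomial σ R →+* MvPolynomial σ (Localization.Away Δ) :=
  MvPolynomial.map (algebraMap R (Localization.Away Δ))

theorem unit_C (n : ℕ) : IsUnit (C (algebraMap R (Localization.Away Δ) (Δ ^ n)) :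
    MvPolynomial σ (Localization.Away Δ)) := by
  refine IsUnit.map C ?_
  rw [map_pow]
  exact (IsLocalization.Away.algebraMap_isUnit Δ).pow n

theorem exists_num (f : MvPolynomial σ (Localization.Away Δ)) :
    ∃ (n : ℕ) (g : MvPolynomial σ R),
      C (algebraMap R (Localization.Away Δ) (Δ ^ n)) * f = lm σ Δ g := by
  induction f using MvPolynomial.induction_on' with
  | monomial u a =>
    obtain ⟨n, b, hb⟩ := IsLocalization.Away.surj Δ a
    refine ⟨n, monomial u b, ?_⟩
    rw [lm, map_monomial, C_mul_monomial, ← hb, map_pow]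
    congr 1
    ring
  | add p q hp hq =>
    obtain ⟨n, g, hg⟩ := hp
    obtain ⟨n', g', hg'⟩ := hq
    refine ⟨n + n', C (Δ ^ n') * g + C (Δ ^ n) * g', ?_⟩
    rw [map_add, map_mul, map_mul, ← hg, ← hg', lm, map_C, map_C, pow_add, map_mul, map_mul]
    ring

theorem exists_num_mem (I : Ideal (MvPolynomial σ R)) {f : MvPolynomial σ (Localization.Away Δ)}
    (hf : f ∈ I.map (lm σ Δ)) : ∃ (n : ℕ) (g : MvPolynomial σ R), g ∈ I ∧
      C (algebraMap R (Localization.Away Δ) (Δ ^ n)) * f = lm σ Δ g := by
  rw [Ideal.map] at hf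
  induction hf using Submodule.span_induction with
  | mem x hx =>
    obtain ⟨g, hg, rfl⟩ := hx
    exact ⟨0, g, hg, by rw [pow_zero, map_one, map_one, one_mul]⟩
  | zero => exact ⟨0, 0, I.zero_mem, by rw [mul_zero, map_zero]⟩
  | add p q _ _ hp hq =>
    obtain ⟨n, g, hgI, hg⟩ := hp
    obtain ⟨n', g', hgI', hg'⟩ := hq
    refine ⟨n + n', C (Δ ^ n') * g + C (Δ ^ n) * g',
      I.add_mem (I.mul_mem_left _ hgI) (I.mul_mem_left _ hgI'), ?_⟩
    rw [map_add, map_mul, map_mul, ← hg, ← hg', lm, map_C, map_C, pow_add, map_mul, map_mul]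
    ring
  | smul a p _ hp =>
    obtain ⟨n, g, hgI, hg⟩ := hp
    obtain ⟨n', g', hg'⟩ := exists_num Δ a
    refine ⟨n + n', g' * g, I.mul_mem_left _ hgI, ?_⟩
    rw [map_mul, ← hg, ← hg', smul_eq_mul, pow_add, map_mul, map_mul]
    ring

end denominators

section compl

variable {σ : Type u} [Finite σ] {R : Type v} [CommRing R] [IsDomain R]

theorem inj_alg {Δ : R} (h : Δ ≠ 0) : Function.Injective (algebraMap R (Localization.Away Δ)) :=
  IsLocalization.injective _ (powers_le_nonZeroDivisors_of_noZeroDivisors h)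

/-- After inverting one element every ideal has a complement spanned by monomials. -/
theorem exists_compl (mo : MonomialOrder σ) (J : Ideal (MvPolynomial σ R)) :
    ∃ Δ : R, Δ ≠ 0 ∧ ∃ S : Set (σ →₀ ℕ),
      (∀ f : MvPolynomial σ (Localization.Away Δ), ∃ j ∈ J.map (lm σ Δ),
        ∃ r : MvPolynomial σ (Localization.Away Δ), f = j + r ∧ ∀ a ∈ r.support, a ∈ S) ∧
      ∀ f ∈ J.map (lm σ Δ), (∀ a ∈ f.support, a ∈ S) → f = 0 := by
  classical
  obtain ⟨T, hTU, hT⟩ := exists_min {d : σ →₀ ℕ | ∃ g ∈ J, g ≠ 0 ∧ mo.degree g = d}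
  have hch : ∀ t : T, ∃ g ∈ J, g ≠ 0 ∧ mo.degree g = (t : σ →₀ ℕ) := fun t => hTU t t.2
  choose g hgJ hg0 hgd using hch
  obtain ⟨Δ, hΔd⟩ : ∃ D : R, D = ∏ t : T, mo.leadingCoeff (g t) := ⟨_, rfl⟩
  have hΔ : Δ ≠ 0 := by
    rw [hΔd]
    exact Finset.prod_ne_zero_iff.mpr fun t _ => mo.leadingCoeff_ne_zero_iff.mpr (hg0 t)
  have hinj := inj_alg hΔ
  refine ⟨Δ, hΔ, {d | ∀ t ∈ T, ¬ t ≤ d}, ?_, ?_⟩
  · intro f
    have hdeg : ∀ t, mo.degree (lm σ Δ (g t)) = (t : σ →₀ ℕ) := by
      intro t
      rw [← hgd t, MonomialOrder.degree, MonomialOrder.degree, lm,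
        support_map_of_injective _ hinj]
    have hlc : ∀ t, mo.leadingCoeff (lm σ Δ (g t)) =
        algebraMap R (Localization.Away Δ) (mo.leadingCoeff (g t)) := by
      intro t
      rw [MonomialOrder.leadingCoeff, MonomialOrder.leadingCoeff, hdeg, hgd, lm, coeff_map]
    have hb : ∀ t : T, IsUnit (mo.leadingCoeff (lm σ Δ (g t))) := by
      intro t
      rw [hlc]
      have h1 : mo.leadingCoeff (g t) ∣ Δ := by
        rw [hΔd]
        exact Finset.dvd_prod_of_mem _ (Finset.mem_univ t)
      exact isUnit_of_dvd_unit (map_dvd _ h1) (IsLocalization.Away.algebraMap_isUnit Δ)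
    obtain ⟨q, r, h1, -, h3⟩ := mo.div hb f
    refine ⟨Finsupp.linearCombination _ (fun t => lm σ Δ (g t)) q, ?_, r, h1, fun a ha t ht => ?_⟩
    · rw [Finsupp.linearCombination_apply]
      refine Ideal.sum_mem _ fun t _ => ?_
      exact Ideal.mul_mem_left _ _ (Ideal.mem_map_of_mem _ (hgJ t))
    · have := h3 a ha ⟨t, ht⟩
      rwa [hdeg] at this
  · intro f hf hS
    have hdom : IsDomain (Localization.Away Δ) :=
      IsLocalization.isDomain_localization (powers_le_nonZeroDivisors_of_noZeroDivisors hΔ)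
    by_contra hf0
    obtain ⟨n, h, hJ, hh⟩ := exists_num_mem Δ J hf
    have hs : (algebraMap R (Localization.Away Δ) (Δ ^ n)) ≠ 0 :=
      (map_ne_zero_iff _ hinj).mpr (pow_ne_zero n hΔ)
    have hsupp : (C (algebraMap R (Localization.Away Δ) (Δ ^ n)) * f).support = f.support := by
      ext a
      rw [mem_support_iff, mem_support_iff, coeff_C_mul, mul_ne_zero_iff]
      exact ⟨fun h => h.2, fun h => ⟨hs, h⟩⟩
    have hh0 : h ≠ 0 := by
      rintro rfl
      rw [map_zero] at hh
      exact mul_ne_zero (by rw [Ne, C_eq_zero]; exact hs) hf0 hh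
    have hdeg : mo.degree h = mo.degree f := by
      have e1 : (lm σ Δ h).support = h.support := support_map_of_injective _ hinj
      rw [MonomialOrder.degree, MonomialOrder.degree, ← e1, ← hh, hsupp]
    obtain ⟨t, ht, hle⟩ := hT (mo.degree h) ⟨h, hJ, hh0, rfl⟩
    refine hS (mo.degree f) (mo.degree_mem_support hf0) t ht ?_
    rw [← hdeg]
    exact hle

end compl

section nzd

variable {σ : Type u} [Finite σ] {R : Type v} [CommRing R] [IsDomain R]

theorem exists_order (σ : Type u) [Finite σ] : Nonempty (MonomialOrder.{u, u} σ) := by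
  classical
  obtain ⟨n, ⟨e⟩⟩ := Finite.exists_equiv_fin σ
  letI : LinearOrder σ := LinearOrder.lift' e e.injective
  exact ⟨MonomialOrder.degLex⟩

theorem hmon {σ : Type u} (B : Type v) [CommRing B] (a : σ →₀ ℕ) (b : B) :
    (monomial a b : MvPolynomial σ B) = b • monomial a 1 := by
  rw [smul_monomial, smul_eq_mul, mul_one]

/-- `d` is not a zero divisor modulo `I` in the fibres. -/
theorem exists_nzd (I : Ideal (MvPolynomial σ R)) (d : MvPolynomial σ R)
    (hd : ∀ f, d * f ∈ I → f ∈ I) : ∃ Δ : R, Δ ≠ 0 ∧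
      ∀ (k : Type w) [Field k] (φ : R →+* k), φ Δ ≠ 0 → ∀ f : MvPolynomial σ k,
        MvPolynomial.map φ d * f ∈ I.map (MvPolynomial.map φ) →
          f ∈ I.map (MvPolynomial.map φ) := by
  classical
  obtain ⟨mo⟩ := exists_order σ
  obtain ⟨Δ, hΔ, S, hS1, hS2⟩ := exists_compl mo (I ⊔ Ideal.span {d})
  refine ⟨Δ, hΔ, fun k _ φ hφ f hf => ?_⟩
  have hinj := inj_alg hΔ
  set A := Localization.Away Δ with hA
  set ι : R →+* A := algebraMap R A with hι
  set IA : Ideal (MvPolynomial σ A) := I.map (lm σ Δ) with hIA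
  set dA : MvPolynomial σ A := lm σ Δ d with hdA
  have hJA : (I ⊔ Ideal.span {d}).map (lm σ Δ) = IA ⊔ Ideal.span {dA} := by
    rw [Ideal.map_sup, Ideal.map_span, Set.image_singleton]
  rw [hJA] at hS1 hS2
  have hdA' : ∀ g : MvPolynomial σ A, dA * g ∈ IA → g ∈ IA := by
    intro g hg
    obtain ⟨n, g0, hg0⟩ := exists_num Δ g
    obtain ⟨n', h, hI, hh⟩ := exists_num_mem Δ I hg
    have e1 : d * (C (Δ ^ n') * g0) = C (Δ ^ n) * h := by
      apply MvPolynomial.map_injective ι hinj
      show lm σ Δ _ = lm σ Δ _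
      rw [map_mul, map_mul, map_mul, ← hg0, ← hh, lm, map_C, map_C]
      ring
    have e2 : C (Δ ^ n') * g0 ∈ I := hd _ (by rw [e1]; exact I.mul_mem_left _ hI)
    have e3 : C (ι (Δ ^ n')) * (C (ι (Δ ^ n)) * g) ∈ IA := by
      have := Ideal.mem_map_of_mem (lm σ Δ) e2
      rw [map_mul, ← hg0, lm, map_C] at this
      exact this
    have u1 := unit_C (σ := σ) Δ n
    have u2 := unit_C (σ := σ) Δ n'
    exact (Ideal.unit_mul_mem_iff_mem _ u1).mp ((Ideal.unit_mul_mem_iff_mem _ u2).mp e3)
  -- the decomposition of the monomials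
  have hdec : ∀ a : σ →₀ ℕ, ∃ q r : MvPolynomial σ A,
      monomial a 1 - r - dA * q ∈ IA ∧ ∀ b ∈ r.support, b ∈ S := by
    intro a
    obtain ⟨j, hj, r, h1, h2⟩ := hS1 (monomial a 1)
    obtain ⟨i, hi, s, hs, his⟩ := Submodule.mem_sup.mp hj
    obtain ⟨q, hq⟩ := Ideal.mem_span_singleton'.mp hs
    refine ⟨q, r, ?_, h2⟩
    have : monomial a 1 - r - dA * q = i := by
      rw [h1, ← his, ← hq]
      ring
    rw [this]
    exact hi
  choose q r hqr hrS using hdec
  let ρ : MvPolynomial σ A →ₗ[A] MvPolynomial σ A := (basisMonomials σ A).constr A q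
  let rr : MvPolynomial σ A →ₗ[A] MvPolynomial σ A := (basisMonomials σ A).constr A r
  have hρ : ∀ a, ρ (monomial a 1) = q a := by
    intro a
    have := (basisMonomials σ A).constr_basis A q a
    rwa [coe_basisMonomials] at this
  have hrr : ∀ a, rr (monomial a 1) = r a := by
    intro a
    have := (basisMonomials σ A).constr_basis A r a
    rwa [coe_basisMonomials] at this
  have key1 : ∀ g : MvPolynomial σ A, g - rr g - dA * ρ g ∈ IA := by
    intro g
    induction g using MvPolynomial.induction_on' with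
    | monomial a b =>
      have e : (monomial a b : MvPolynomial σ A) - rr (monomial a b) - dA * ρ (monomial a b) =
          C b * (monomial a 1 - r a - dA * q a) := by
        rw [hmon A a b, map_smul, map_smul, hρ, hrr, smul_eq_C_mul, smul_eq_C_mul, smul_eq_C_mul]
        ring
      rw [e]
      exact IA.mul_mem_left _ (hqr a)
    | add p p' hp hp' =>
      have e : p + p' - rr (p + p') - dA * ρ (p + p') =
          (p - rr p - dA * ρ p) + (p' - rr p' - dA * ρ p') := by
        rw [map_add, map_add]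
        ring
      rw [e]
      exact IA.add_mem hp hp'
  have key2 : ∀ (g : MvPolynomial σ A) (a : σ →₀ ℕ), a ∉ S → coeff a (rr g) = 0 := by
    intro g
    induction g using MvPolynomial.induction_on' with
    | monomial a b =>
      intro c hc
      rw [hmon A a b, map_smul, hrr, coeff_smul]
      have : coeff c (r a) = 0 := by
        by_contra h
        exact hc (hrS a c (mem_support_iff.mpr h))
      rw [this, smul_zero]
    | add p p' hp hp' =>
      intro c hc
      rw [map_add, coeff_add, hp c hc, hp' c hc, add_zero]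
  have key3 : ∀ g ∈ IA ⊔ Ideal.span {dA}, g - dA * ρ g ∈ IA := by
    intro g hg
    have h1 := key1 g
    have h2 : rr g ∈ IA ⊔ Ideal.span {dA} := by
      have h3 : g - (g - rr g - dA * ρ g) - dA * ρ g ∈ IA ⊔ Ideal.span {dA} := by
        refine Ideal.sub_mem _ (Ideal.sub_mem _ hg (Ideal.mem_sup_left h1)) ?_
        exact Ideal.mul_mem_right _ _ (Ideal.mem_sup_right (Ideal.mem_span_singleton_self dA))
      have e : g - (g - rr g - dA * ρ g) - dA * ρ g = rr g := by ring
      rwa [e] at h3
    have h4 : rr g = 0 := hS2 _ h2 fun a ha => by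
      by_contra h
      exact (mem_support_iff.mp ha) (key2 g a h)
    rw [h4, sub_zero] at h1
    exact h1
  have key4 : ∀ g ∈ IA, ρ g ∈ IA := by
    intro g hg
    refine hdA' _ ?_
    have h1 := key3 g (Ideal.mem_sup_left hg)
    have e : dA * ρ g = g - (g - dA * ρ g) := by ring
    rw [e]
    exact IA.sub_mem hg h1
  have key5 : ∀ g, g - ρ (dA * g) ∈ IA := by
    intro g
    refine hdA' _ ?_
    have h1 := key3 (dA * g)
      (Ideal.mul_mem_right _ _ (Ideal.mem_sup_right (Ideal.mem_span_singleton_self dA)))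
    rw [mul_sub]
    exact h1
  -- specialization
  have hu : IsUnit (φ Δ) := isUnit_iff_ne_zero.mpr hφ
  let φA : A →+* k := IsLocalization.Away.lift Δ hu
  have hφA : φA.comp ι = φ := IsLocalization.Away.lift_comp Δ hu
  have hmap : (MvPolynomial.map φA).comp (lm σ Δ) = (MvPolynomial.map φ :
      MvPolynomial σ R →+* MvPolynomial σ k) := by
    rw [← hφA]
    ext
    · simp [lm]
      rfl
    · simp [lm]
  have hmap' : ∀ g, MvPolynomial.map φA (lm σ Δ g) = MvPolynomial.map φ g := fun g =>
    DFunLike.congr_fun hmap g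
  set Ik : Ideal (MvPolynomial σ k) := I.map (MvPolynomial.map φ) with hIk
  have hIAk : ∀ g ∈ IA, MvPolynomial.map φA g ∈ Ik := by
    intro g hg
    have h1 := Ideal.mem_map_of_mem (MvPolynomial.map φA) hg
    rwa [hIA, Ideal.map_map, hmap] at h1
  let ρk : MvPolynomial σ k →ₗ[k] MvPolynomial σ k :=
    (basisMonomials σ k).constr k fun a => MvPolynomial.map φA (q a)
  have hρk : ∀ a, ρk (monomial a 1) = MvPolynomial.map φA (q a) := by
    intro a
    have := (basisMonomials σ k).constr_basis k (fun a => MvPolynomial.map φA (q a)) a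
    rwa [coe_basisMonomials] at this
  have P1 : ∀ g : MvPolynomial σ A, ρk (MvPolynomial.map φA g) = MvPolynomial.map φA (ρ g) := by
    intro g
    induction g using MvPolynomial.induction_on' with
    | monomial a b =>
      rw [map_monomial, hmon k a (φA b), map_smul, hρk, hmon A a b, map_smul, hρ, smul_eq_C_mul,
        smul_eq_C_mul, map_mul, map_C]
    | add p p' hp hp' => rw [map_add, map_add, map_add, map_add, hp, hp']
  have P2 : ∀ g : MvPolynomial σ k, g - ρk (MvPolynomial.map φ d * g) ∈ Ik := by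
    intro g
    induction g using MvPolynomial.induction_on' with
    | monomial a b =>
      have e : (monomial a b : MvPolynomial σ k) -
          ρk (MvPolynomial.map φ d * monomial a b) =
          C b * MvPolynomial.map φA (monomial a 1 - ρ (dA * monomial a 1)) := by
        have e1 : MvPolynomial.map φ d * (monomial a b : MvPolynomial σ k) =
            b • MvPolynomial.map φA (dA * monomial a 1) := by
          rw [map_mul, hdA, hmap', map_monomial, map_one φA, hmon k a b, mul_smul_comm]
        rw [e1, map_smul, P1, map_sub, map_monomial, map_one φA, hmon k a b, smul_eq_C_mul,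
          smul_eq_C_mul]
        ring
      rw [e]
      exact Ik.mul_mem_left _ (hIAk _ (key5 _))
    | add p p' hp hp' =>
      have e : p + p' - ρk (MvPolynomial.map φ d * (p + p')) =
          (p - ρk (MvPolynomial.map φ d * p)) + (p' - ρk (MvPolynomial.map φ d * p')) := by
        rw [mul_add, map_add]
        ring
      rw [e]
      exact Ik.add_mem hp hp'
  have P3' : ∀ g ∈ Ik, ∀ h : MvPolynomial σ k, ρk (h * g) ∈ Ik := by
    intro g hg
    rw [hIk, Ideal.map] at hg
    induction hg using Submodule.span_induction with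
    | mem x hx =>
      obtain ⟨i, hi, rfl⟩ := hx
      intro h
      induction h using MvPolynomial.induction_on' with
      | monomial a b =>
        have e1 : (monomial a b : MvPolynomial σ k) * MvPolynomial.map φ i =
            b • MvPolynomial.map φA (monomial a 1 * lm σ Δ i) := by
          rw [map_mul, hmap', map_monomial, map_one φA, hmon k a b, smul_mul_assoc]
        rw [e1, map_smul, P1, smul_eq_C_mul]
        exact Ik.mul_mem_left _ (hIAk _ (key4 _ (IA.mul_mem_left _ (Ideal.mem_map_of_mem _ hi))))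
      | add p p' hp hp' =>
        rw [add_mul, map_add]
        exact Ik.add_mem hp hp'
    | zero =>
      intro h
      rw [mul_zero, map_zero]
      exact Ik.zero_mem
    | add p p' _ _ hp hp' =>
      intro h
      rw [mul_add, map_add]
      exact Ik.add_mem (hp h) (hp' h)
    | smul a p _ hp =>
      intro h
      rw [smul_eq_mul, ← mul_assoc]
      exact hp (h * a)
  have h1 := P2 f
  have h2 := P3' _ hf 1
  rw [one_mul] at h2
  have e : f = (f - ρk (MvPolynomial.map φ d * f)) + ρk (MvPolynomial.map φ d * f) := by ring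
  rw [e]
  exact Ik.add_mem h1 h2

end nzd

end Pool.Agent.Helper92.GF
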